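import Mathlib
import Pool.Agent.Y734.R.P1.Main

/-!
# Balanced systems of centred trees

`g s` are similarities on `n` points, such that for each point `i` the set of the points similar to `i`
has at most `n / 2` elements, and `∑ s, g s i i = x i + y i`, `2 ∑ s, g s i j = y i + y j` for
`i ≠ j`. If `n > (q - 1) (2 q - 1)`, all of them are zero.
-/

set_option autoImplicit false

namespace Pool.Agent.Q13.MB

open Finset Pool.Agent.Y734.R

variable {G : Type} [AddCommGroup G] [LinearOrder G] [IsOrderedAddMonoid G]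

/-- The sum of the depths is bounded by the potentials. -/
theorem path_bound {n : ℕ} {A : Fin n → Fin n → G} (hA : Sim A) {y : Fin n → G}
    (hy : ∀ i j, i ≠ j → (2 : ℕ) • A i j ≤ y i + y j) :
    ∀ (N : ℕ) (V : Finset (Fin n)), V.card = N → 2 ≤ N → ∀ h : Fin n → G,
      (∀ i ∈ V, ∃ j ∈ V, j ≠ i ∧ h i ≤ A i j) →
      ∃ a ∈ V, ∃ b ∈ V, a ≠ b ∧ ∑ i ∈ V, h i + (y a + y b) ≤ (2 : ℕ) • ∑ i ∈ V, y i := by
  classical
  intro N
  induction N using Nat.strong_induction_on with
  | _ N ih =>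
    intro V hV hN h hh
    -- the pair with minimal similarity
    have hne : V.offDiag.Nonempty := by
      obtain ⟨a, ha, b, hb, hab⟩ := Finset.one_lt_card.1 (show 1 < V.card by omega)
      exact ⟨(a, b), by simp [ha, hb, hab]⟩
    obtain ⟨⟨i0, j0⟩, hp, hmin⟩ :=
      Finset.exists_min_image V.offDiag (fun p => A p.1 p.2) hne
    simp only [mem_offDiag] at hp
    obtain ⟨hi0, hj0, hij0⟩ := hp
    have hmin' : ∀ i ∈ V, ∀ j ∈ V, i ≠ j → A i0 j0 ≤ A i j := fun i hi j hj hij =>
      hmin (i, j) (by simp [hi, hj, hij])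
    obtain ⟨g, hg⟩ : ∃ g, g = A i0 j0 := ⟨_, rfl⟩
    rw [← hg] at hmin'
    have hg0 : 0 ≤ g := by rw [hg]; exact hA.1 _ _
    set V1 := V.filter (fun j => j = i0 ∨ g < A i0 j) with hV1
    set V2 := V.filter (fun j => ¬ (j = i0 ∨ g < A i0 j)) with hV2
    have h1 : i0 ∈ V1 := by simp [hV1, hi0]
    have h2 : j0 ∈ V2 := by
      simp only [hV2, mem_filter, hj0, true_and, not_or, not_lt]
      exact ⟨fun h => hij0 h.symm, by rw [hg]⟩
    have hcross : ∀ i ∈ V1, ∀ j ∈ V2, A i j = g := by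
      intro i hi j hj
      simp only [hV1, hV2, mem_filter, not_or, not_lt] at hi hj
      have hij : i ≠ j := by
        rintro rfl
        rcases hi.2 with h | h
        · exact hj.2.1 h
        · exact absurd hj.2.2 (not_le.2 h)
      refine le_antisymm ?_ (hmin' i hi.1 j hj.1 hij)
      rcases hi.2 with h | h
      · rw [h]; exact hj.2.2
      · by_contra hcon
        rw [not_le] at hcon
        have := lt_of_lt_of_le (lt_min h hcon) (hA.2.2.1 i0 i j)
        exact absurd hj.2.2 (not_le.2 this)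
    have hcard : V1.card + V2.card = V.card := Finset.card_filter_add_card_filter_not _
    have hsum : ∀ f : Fin n → G, ∑ i ∈ V, f i = ∑ i ∈ V1, f i + ∑ i ∈ V2, f i := fun f =>
      (Finset.sum_filter_add_sum_filter_not _ _ _).symm
    have hc1 : 1 ≤ V1.card := Finset.card_pos.2 ⟨_, h1⟩
    have hc2 : 1 ≤ V2.card := Finset.card_pos.2 ⟨_, h2⟩
    -- one part
    have part : ∀ W W' : Finset (Fin n), W ⊆ V → W'.Nonempty → W.card < N → 1 ≤ W.card →
        (∀ i ∈ W, ∀ j ∈ W', A i j = g) → (∀ j ∈ V, j ∉ W → j ∈ W') →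
        ∃ a ∈ W, ∃ b ∈ W, ∑ i ∈ W, h i + (y a + y b) ≤ (2 : ℕ) • ∑ i ∈ W, y i + g := by
      intro W W' hWV hW' hWN hW1 hWc hWW
      rcases Nat.lt_or_ge 1 W.card with hW2 | hW2
      · obtain ⟨a, ha, b, hb, -, hab⟩ := ih W.card hWN W rfl hW2 h (by
          intro i hi
          obtain ⟨j, hj, hji, hle⟩ := hh i (hWV hi)
          by_cases hjW : j ∈ W
          · exact ⟨j, hjW, hji, hle⟩
          · have h3 : A i j = g := hWc i hi j (hWW j hj hjW)
            obtain ⟨j', hj', hji'⟩ := Finset.exists_mem_ne hW2 i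
            exact ⟨j', hj', hji', hle.trans
              (h3.le.trans (hmin' i (hWV hi) j' (hWV hj') (Ne.symm hji')))⟩)
        exact ⟨a, ha, b, hb, hab.trans (le_add_of_nonneg_right hg0)⟩
      · obtain ⟨i, rfl⟩ := Finset.card_eq_one.1 (show W.card = 1 by omega)
        refine ⟨i, mem_singleton_self _, i, mem_singleton_self _, ?_⟩
        rw [sum_singleton, sum_singleton, two_nsmul, add_comm]
        refine add_le_add_right ?_ _
        obtain ⟨j, hj, hji, hle⟩ := hh i (hWV (mem_singleton_self _))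
        rwa [hWc i (mem_singleton_self _) j (hWW j hj (by simpa using hji))] at hle
    obtain ⟨a1, ha1, b1, hb1, hle1⟩ := part V1 V2 (filter_subset _ _) ⟨_, h2⟩ (by omega) hc1 hcross
      (fun j hj hj' => by
        simp only [hV1, hV2, mem_filter, hj, true_and] at hj' ⊢
        exact hj')
    obtain ⟨a2, ha2, b2, hb2, hle2⟩ := part V2 V1 (filter_subset _ _) ⟨_, h1⟩ (by omega) hc2
      (fun i hi j hj => by rw [hA.2.1 i j]; exact hcross j hj i hi)
      (fun j hj hj' => by
        simp only [hV1, hV2, mem_filter, hj, true_and] at hj' ⊢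
        exact not_not.1 hj')
    have hdis : ∀ i ∈ V1, ∀ j ∈ V2, i ≠ j := by
      intro i hi j hj hij
      subst hij
      simp only [hV1, hV2, mem_filter] at hi hj
      exact hj.2 hi.2
    refine ⟨a1, (mem_filter.1 ha1).1, b2, (mem_filter.1 hb2).1, hdis a1 ha1 b2 hb2, ?_⟩
    have h3 := hy b1 a2 (hdis b1 hb1 a2 ha2)
    rw [hcross b1 hb1 a2 ha2, two_nsmul] at h3
    rw [hsum h, hsum y, nsmul_add]
    have h4 := add_le_add hle1 hle2
    -- combine
    have h5 : ∑ i ∈ V1, h i + ∑ i ∈ V2, h i + (y a1 + y b2) + (y b1 + y a2) ≤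
        (2 : ℕ) • ∑ i ∈ V1, y i + (2 : ℕ) • ∑ i ∈ V2, y i + (g + g) := by
      calc _ = ∑ i ∈ V1, h i + (y a1 + y b1) + (∑ i ∈ V2, h i + (y a2 + y b2)) := by abel
        _ ≤ _ := h4
        _ = _ := by abel
    have h6 := add_le_add h5 h3
    have h7 : ∑ i ∈ V1, h i + ∑ i ∈ V2, h i + (y a1 + y b2) + (y b1 + y a2 + (g + g)) ≤
        (2 : ℕ) • ∑ i ∈ V1, y i + (2 : ℕ) • ∑ i ∈ V2, y i + (y b1 + y a2 + (g + g)) := by
      calc _ = ∑ i ∈ V1, h i + ∑ i ∈ V2, h i + (y a1 + y b2) + (y b1 + y a2) + (g + g) := by abel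
        _ ≤ _ := h6
        _ = _ := by abel
    exact le_of_add_le_add_right h7

/-- The sum of the diagonal entries of a similarity. -/
theorem diag_bound {n : ℕ} (hn : 2 ≤ n) {A : Fin n → Fin n → G} (hA : Sim A) {y : Fin n → G}
    (hy : ∀ i j, i ≠ j → (2 : ℕ) • A i j ≤ y i + y j)
    (hp : ∀ i, ∃ j, j ≠ i ∧ A i i ≤ A i j) : ∑ i, A i i ≤ (2 : ℕ) • ∑ i, y i := by
  obtain ⟨a, -, b, -, hab, h⟩ := path_bound hA hy n Finset.univ (by simp) hn (fun i => A i i)
    (fun i _ => by
      obtain ⟨j, hj, hj'⟩ := hp i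
      exact ⟨j, mem_univ _, hj, hj'⟩)
  have h1 : 0 ≤ y a + y b := (nsmul_nonneg (hA.1 a b) 2).trans (hy a b hab)
  exact (le_add_of_nonneg_right h1).trans h

/-- Sums over classes. -/
theorem class_sum {n : ℕ} {A : Fin n → Fin n → G} (hA : Sim A) (x : Fin n → G) (hx : ∀ i, 0 ≤ x i)
    (h : ∀ i0, 0 < A i0 i0 →
      ∑ i ∈ univ.filter (fun j => 0 < A i0 j), ∑ j ∈ univ.filter (fun j => 0 < A i0 j), A i j ≤
        ∑ i ∈ univ.filter (fun j => 0 < A i0 j), x i) :
    ∑ i, ∑ j, A i j ≤ ∑ i, x i := by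
  classical
  let cls : Fin n → Finset (Fin n) := fun i => univ.filter (fun j => 0 < A i j)
  set D := univ.filter (fun i => 0 < A i i) with hD
  have h0 : ∀ i, (∑ j, A i j) = ∑ j ∈ cls i, A i j := by
    intro i
    rw [Finset.sum_filter]
    refine Finset.sum_congr rfl fun j _ => ?_
    split_ifs with hj
    · rfl
    · exact le_antisymm (not_lt.1 hj) (hA.1 i j)
  have h1 : ∑ i, ∑ j, A i j = ∑ i ∈ D, ∑ j ∈ cls i, A i j := by
    simp only [h0]
    rw [hD, Finset.sum_filter]
    refine Finset.sum_congr rfl fun i _ => ?_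
    split_ifs with hi
    · rfl
    · refine Finset.sum_eq_zero fun j _ => ?_
      exact le_antisymm ((hA.2.2.2 i j).trans (not_lt.1 hi)) (hA.1 i j)
  have h2 : ∑ i ∈ D, x i ≤ ∑ i, x i :=
    Finset.sum_le_sum_of_subset_of_nonneg (subset_univ _) fun i _ _ => hx i
  refine le_trans ?_ h2
  rw [h1, ← Finset.sum_fiberwise_of_maps_to (s := D) (t := D.image cls) (g := cls)
    (fun i hi => Finset.mem_image_of_mem _ hi) (f := fun i => ∑ j ∈ cls i, A i j),
    ← Finset.sum_fiberwise_of_maps_to (s := D) (t := D.image cls) (g := cls)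
    (fun i hi => Finset.mem_image_of_mem _ hi) (f := x)]
  refine Finset.sum_le_sum fun c hc => ?_
  obtain ⟨i0, hi0, rfl⟩ := Finset.mem_image.1 hc
  have hi0' : 0 < A i0 i0 := by simpa [hD] using hi0
  have h3 : D.filter (fun i => cls i = cls i0) = cls i0 := by
    ext i
    simp only [mem_filter, mem_univ, true_and, hD, cls]
    constructor
    · rintro ⟨hi, he⟩
      have h4 : i ∈ univ.filter (fun j => 0 < A i j) := by simpa using hi
      rw [he] at h4
      simpa using h4
    · intro hi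
      refine ⟨lt_of_lt_of_le hi (by rw [hA.2.1 i0 i]; exact hA.2.2.2 i i0), ?_⟩
      ext j
      simp only [mem_filter, mem_univ, true_and]
      constructor
      · intro hj
        exact lt_of_lt_of_le (lt_min hi hj) (hA.2.2.1 i0 i j)
      · intro hj
        refine lt_of_lt_of_le (lt_min ?_ hj) (hA.2.2.1 i i0 j)
        rw [hA.2.1 i i0]; exact hi
  rw [h3]
  refine le_trans (le_of_eq ?_) (h i0 hi0')
  refine Finset.sum_congr rfl fun i hi => ?_
  have h5 : i ∈ D.filter (fun i => cls i = cls i0) := by rw [h3]; exact hi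
  rw [(mem_filter.1 h5).2]

end Pool.Agent.Q13.MB
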