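import Mathlib
import Pool.Agent.Q13.MB.Abs

/-!
# Balanced systems of centred trees, part 2
-/

set_option autoImplicit false

namespace Pool.Agent.Q13.MB

open Finset Pool.Agent.Y734.R

variable {G : Type} [AddCommGroup G] [LinearOrder G] [IsOrderedAddMonoid G]

/-- The quadratic form of the sum. -/
theorem form_eq {q n : ℕ} (A : Fin q → Fin n → Fin n → G) (x y : Fin n → G)
    (hd : ∀ i, ∑ s, A s i i = x i + y i)
    (ho : ∀ i j, i ≠ j → (2 : ℕ) • ∑ s, A s i j = y i + y j) (z : Fin n → ℤ) (hz : ∑ i, z i = 0) :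
    ∑ s, ∑ i, ∑ j, (z i * z j) • A s i j = ∑ i, (z i * z i) • x i := by
  have h1 : ∀ i j, (2 : ℕ) • ∑ s, A s i j = y i + y j + if i = j then (2 : ℕ) • x i else 0 := by
    intro i j
    split_ifs with h
    · subst h
      rw [hd i, nsmul_add, two_nsmul (y i), add_comm]
    · rw [ho i j h, add_zero]
  have h2 : (2 : ℕ) • ∑ s, ∑ i, ∑ j, (z i * z j) • A s i j =
      ∑ i, ∑ j, (z i * z j) • ((2 : ℕ) • ∑ s, A s i j) := by
    rw [Finset.sum_comm, Finset.smul_sum]
    refine Finset.sum_congr rfl fun i _ => ?_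
    rw [Finset.sum_comm, Finset.smul_sum]
    refine Finset.sum_congr rfl fun j _ => ?_
    rw [← Finset.smul_sum, smul_comm]
  have h3 : (2 : ℕ) • ∑ s, ∑ i, ∑ j, (z i * z j) • A s i j =
      (2 : ℕ) • ∑ i, (z i * z i) • x i := by
    rw [h2]
    simp only [h1, smul_add, Finset.sum_add_distrib]
    have e1 : ∑ i, ∑ j, (z i * z j) • y i = 0 := by
      have : ∀ i, ∑ j, (z i * z j) • y i = 0 := by
        intro i
        rw [← Finset.sum_smul, ← Finset.mul_sum, hz, mul_zero, zero_smul]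
      simp [this]
    have e2 : ∑ i, ∑ j, (z i * z j) • y j = 0 := by
      rw [Finset.sum_comm]
      have : ∀ j, ∑ i, (z i * z j) • y j = 0 := by
        intro j
        rw [← Finset.sum_smul, ← Finset.sum_mul, hz, zero_mul, zero_smul]
      simp [this]
    rw [e1, e2, zero_add, zero_add, Finset.smul_sum]
    refine Finset.sum_congr rfl fun i _ => ?_
    rw [Finset.sum_eq_single i]
    · rw [if_pos rfl, smul_comm]
    · intro j _ hj
      rw [if_neg (Ne.symm hj), smul_zero]
    · simp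
  exact nsmul_right_injective (show (2 : ℕ) ≠ 0 by norm_num) h3

/-- The total similarity in one tree. -/
theorem ones_bound {q n : ℕ} (A : Fin q → Fin n → Fin n → G) (hA : ∀ s, Sim (A s))
    (x y : Fin n → G) (hx : ∀ i, 0 ≤ x i) (hd : ∀ i, ∑ s, A s i i = x i + y i)
    (ho : ∀ i j, i ≠ j → (2 : ℕ) • ∑ s, A s i j = y i + y j)
    (hs : ∀ s i, 2 * (univ.filter (fun j => 0 < A s i j)).card ≤ n) (s : Fin q) :
    ∑ i, ∑ j, A s i j ≤ ∑ i, x i := by
  classical
  by_contra hcon
  rw [not_le] at hcon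
  refine absurd (class_sum (hA s) x hx fun i0 hi0 => ?_) (not_le.2 hcon)
  set U := univ.filter (fun j => 0 < A s i0 j) with hU
  have hi0U : i0 ∈ U := by simpa [hU] using hi0
  have hu1 : 1 ≤ U.card := Finset.card_pos.2 ⟨i0, hi0U⟩
  have hu2 : 2 * U.card ≤ n := hs s i0
  obtain ⟨u, hu⟩ : ∃ u : ℤ, u = U.card := ⟨_, rfl⟩
  have hu1' : 1 ≤ u := by rw [hu]; exact_mod_cast hu1
  have hu2' : 2 * u ≤ n := by rw [hu]; exact_mod_cast hu2
  let z : Fin n → ℤ := fun i => if i ∈ U then n - u else -u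
  have hz : ∑ i, z i = 0 := by
    have e1 : ∀ i, z i = -u + if i ∈ U then (n : ℤ) else 0 := by
      intro i
      simp only [z]
      split_ifs <;> ring
    simp only [e1, Finset.sum_add_distrib]
    rw [Finset.sum_const, Finset.card_univ, Fintype.card_fin, Finset.sum_ite_mem,
      Finset.univ_inter, Finset.sum_const, nsmul_eq_mul, nsmul_eq_mul, ← hu]
    ring
  have hcr : ∀ i ∈ U, ∀ j, j ∉ U → A s i j = 0 := by
    intro i hi j hj
    refine le_antisymm (not_lt.1 fun h => hj ?_) ((hA s).1 i j)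
    simp only [hU, mem_filter, mem_univ, true_and] at hi ⊢
    exact lt_of_lt_of_le (lt_min hi h) ((hA s).2.2.1 i0 i j)
  have hf := form_eq A x y hd ho z hz
  have hle : ∑ i, ∑ j, (z i * z j) • A s i j ≤ ∑ i, (z i * z i) • x i := by
    rw [← hf]
    exact Finset.single_le_sum (f := fun s => ∑ i, ∑ j, (z i * z j) • A s i j)
      (fun s' _ => P1.psd G n (A s') (hA s') z) (mem_univ s)
  obtain ⟨c, hc⟩ : ∃ c : ℤ, c = (n - u) ^ 2 - u ^ 2 := ⟨_, rfl⟩
  have hc0 : 0 ≤ c := by rw [hc]; nlinarith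
  have hQ : ∑ i, ∑ j, (z i * z j) • A s i j =
      (u ^ 2) • (∑ i, ∑ j, A s i j) + c • ∑ i ∈ U, ∑ j ∈ U, A s i j := by
    have e1 : ∀ i j, (z i * z j) • A s i j =
        (u ^ 2) • A s i j + if i ∈ U then (if j ∈ U then c • A s i j else 0) else 0 := by
      intro i j
      by_cases hi : i ∈ U <;> by_cases hj : j ∈ U
      · simp only [z, hi, hj, if_true, ← add_smul, hc]
        congr 1
        ring
      · simp [hcr i hi j hj]
      · rw [(hA s).2.1 i j, hcr j hj i hi]
        simp [hi]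
      · simp only [z, hi, hj, if_false, add_zero]
        congr 1
        ring
    simp only [e1, Finset.sum_add_distrib, ← Finset.smul_sum]
    congr 1
    rw [Finset.smul_sum, ← Finset.sum_filter_add_sum_filter_not univ (fun i => i ∈ U)]
    have e2 : ∑ i ∈ univ.filter (fun i => ¬ i ∈ U),
        ∑ j, (if i ∈ U then (if j ∈ U then c • A s i j else 0) else 0) = 0 := by
      refine Finset.sum_eq_zero fun i hi => ?_
      rw [mem_filter] at hi
      simp [hi.2]
    rw [e2, add_zero, Finset.filter_mem_eq_inter, Finset.univ_inter]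
    refine Finset.sum_congr rfl fun i hi => ?_
    simp only [hi, if_true]
    rw [Finset.sum_ite_mem, Finset.univ_inter, Finset.smul_sum]
  have hX : ∑ i, (z i * z i) • x i = (u ^ 2) • (∑ i, x i) + c • ∑ i ∈ U, x i := by
    have e1 : ∀ i, (z i * z i) • x i = (u ^ 2) • x i + if i ∈ U then c • x i else 0 := by
      intro i
      by_cases hi : i ∈ U
      · simp only [z, hi, if_true, ← add_smul, hc]
        congr 1
        ring
      · simp only [z, hi, if_false, add_zero]
        congr 1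
        ring
    simp only [e1, Finset.sum_add_distrib, ← Finset.smul_sum]
    congr 1
    rw [Finset.sum_ite_mem, Finset.univ_inter, Finset.smul_sum]
  rw [hQ, hX] at hle
  by_contra hcon2
  rw [not_le] at hcon2
  have h1 : (u ^ 2) • (∑ i, x i) < (u ^ 2) • (∑ i, ∑ j, A s i j) :=
    zsmul_lt_zsmul_right (by positivity) hcon
  have h2 : c • ∑ i ∈ U, x i ≤ c • ∑ i ∈ U, ∑ j ∈ U, A s i j :=
    zsmul_le_zsmul_right hc0 hcon2.le
  exact absurd hle (not_le.2 (add_lt_add_of_lt_of_le h1 h2))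

/-- **Balanced systems of centred trees with many leaves are trivial.** -/
theorem trivial_of_large {q n : ℕ} (hq : 1 ≤ q) (hn2 : 2 ≤ n) (hn : (q - 1) * (2 * q - 1) < n)
    (A : Fin q → Fin n → Fin n → G) (hA : ∀ s, Sim (A s))
    (x y : Fin n → G) (hx : ∀ i, 0 ≤ x i) (hd : ∀ i, ∑ s, A s i i = x i + y i)
    (ho : ∀ i j, i ≠ j → (2 : ℕ) • ∑ s, A s i j = y i + y j)
    (hs : ∀ s i, 2 * (univ.filter (fun j => 0 < A s i j)).card ≤ n)
    (hp : ∀ s i, ∃ j, j ≠ i ∧ A s i i ≤ A s i j) : ∀ s i j, A s i j = 0 := by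
  classical
  obtain ⟨X, hX⟩ : ∃ X, X = ∑ i, x i := ⟨_, rfl⟩
  obtain ⟨Y, hY⟩ : ∃ Y, Y = ∑ i, y i := ⟨_, rfl⟩
  have hX0 : 0 ≤ X := by rw [hX]; exact Finset.sum_nonneg fun i _ => hx i
  have hB : ∀ s, ∑ i, ∑ j, A s i j ≤ X := fun s => by
    rw [hX]; exact ones_bound A hA x y hx hd ho hs s
  have hC : ∀ s, ∑ i, A s i i ≤ (2 : ℕ) • Y := fun s => by
    rw [hY]
    refine diag_bound hn2 (hA s) (fun i j hij => ?_) (hp s)
    rw [← ho i j hij]
    refine nsmul_le_nsmul_right ?_ 2
    exact Finset.single_le_sum (f := fun s => A s i j) (fun s' _ => (hA s').1 i j) (mem_univ s)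
  -- `X + Y ≤ 2 q Y`
  have h1 : X + Y ≤ (2 * q) • Y := by
    have e1 : ∑ s, ∑ i, A s i i = X + Y := by
      rw [Finset.sum_comm, hX, hY, ← Finset.sum_add_distrib]
      exact Finset.sum_congr rfl fun i _ => hd i
    rw [← e1]
    calc ∑ s, ∑ i, A s i i ≤ ∑ _s : Fin q, (2 : ℕ) • Y := Finset.sum_le_sum fun s _ => hC s
      _ = (2 * q) • Y := by
        rw [Finset.sum_const, Finset.card_univ, Fintype.card_fin, ← mul_nsmul]
  -- `2 X + 2 n Y ≤ 2 q X`
  have h2 : (2 : ℕ) • X + (2 * n) • Y ≤ (2 * q) • X := by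
    have e1 : (2 : ℕ) • ∑ s, ∑ i, ∑ j, A s i j = (2 : ℕ) • X + (2 * n) • Y := by
      have e2 : (2 : ℕ) • ∑ s, ∑ i, ∑ j, A s i j = ∑ i, ∑ j, (2 : ℕ) • ∑ s, A s i j := by
        rw [Finset.sum_comm, Finset.smul_sum]
        refine Finset.sum_congr rfl fun i _ => ?_
        rw [Finset.sum_comm, Finset.smul_sum]
      have h1 : ∀ i j, (2 : ℕ) • ∑ s, A s i j =
          y i + y j + if i = j then (2 : ℕ) • x i else 0 := by
        intro i j
        split_ifs with h
        · subst h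
          rw [hd i, nsmul_add, two_nsmul (y i), add_comm]
        · rw [ho i j h, add_zero]
      rw [e2]
      simp only [h1, Finset.sum_add_distrib]
      have e3 : ∑ i : Fin n, ∑ _j : Fin n, y i = n • Y := by
        simp only [Finset.sum_const, Finset.card_univ, Fintype.card_fin, ← Finset.smul_sum, hY]
      have e4 : ∑ _i : Fin n, ∑ j : Fin n, y j = n • Y := by
        simp only [Finset.sum_const, Finset.card_univ, Fintype.card_fin, hY]
      have e5 : ∑ i : Fin n, ∑ j : Fin n, (if i = j then (2 : ℕ) • x i else 0) = (2 : ℕ) • X := by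
        rw [hX, Finset.smul_sum]
        refine Finset.sum_congr rfl fun i _ => ?_
        simp
      rw [e3, e4, e5, two_mul, add_nsmul]
      abel
    rw [← e1]
    calc (2 : ℕ) • ∑ s, ∑ i, ∑ j, A s i j ≤ (2 : ℕ) • ∑ _s : Fin q, X :=
          nsmul_le_nsmul_right (Finset.sum_le_sum fun s _ => hB s) 2
      _ = (2 * q) • X := by
        rw [Finset.sum_const, Finset.card_univ, Fintype.card_fin, ← mul_nsmul, mul_comm]
  obtain ⟨p, rfl⟩ : ∃ p, q = p + 1 := ⟨q - 1, by omega⟩
  -- `X ≤ (2 p + 1) Y`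
  have h3 : X ≤ (2 * p + 1) • Y := by
    have e1 : (2 * (p + 1)) • Y = (2 * p + 1) • Y + Y := by
      rw [show 2 * (p + 1) = 2 * p + 1 + 1 by ring, succ_nsmul]
    rw [e1] at h1
    exact le_of_add_le_add_right h1
  -- `n Y ≤ p X`
  have h4 : n • Y ≤ p • X := by
    have e1 : (2 * (p + 1)) • X = (2 : ℕ) • X + (2 * p) • X := by
      rw [show 2 * (p + 1) = 2 + 2 * p by ring, add_nsmul]
    rw [e1] at h2
    have h5 := le_of_add_le_add_left h2
    rw [mul_nsmul', mul_nsmul'] at h5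
    exact le_of_nsmul_le_nsmul_right (by norm_num) h5
  have hnp : p * (2 * p + 1) < n := by
    have : (p + 1 - 1) * (2 * (p + 1) - 1) = p * (2 * p + 1) := by
      congr 1
    omega
  have hY0 : Y ≤ 0 := by
    by_contra hcon
    rw [not_le] at hcon
    have h5 : n • Y ≤ (p * (2 * p + 1)) • Y := by
      refine h4.trans ?_
      rw [mul_nsmul']
      exact nsmul_le_nsmul_right h3 p
    exact absurd h5 (not_le.2 (nsmul_lt_nsmul_left hcon hnp))
  have hXz : X = 0 := le_antisymm (h3.trans (nsmul_nonpos hY0 _)) hX0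
  intro s i j
  have h5 := hB s
  rw [hXz] at h5
  have h6 : ∑ i, ∑ j, A s i j = 0 := le_antisymm h5
    (Finset.sum_nonneg fun i _ => Finset.sum_nonneg fun j _ => (hA s).1 i j)
  have h7 := (Finset.sum_eq_zero_iff_of_nonneg
    (fun i _ => Finset.sum_nonneg fun j _ => (hA s).1 i j)).1 h6 i (mem_univ i)
  exact (Finset.sum_eq_zero_iff_of_nonneg (fun j _ => (hA s).1 i j)).1 h7 j (mem_univ j)

end Pool.Agent.Q13.MB
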