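import Mathlib
import Pool.Agent.Q13.MB.Abs2

/-!
# Change of the root of a tree
-/

set_option autoImplicit false
set_option linter.unusedSectionVars false

namespace Pool.Agent.Q13.MB

open Finset Pool.Agent.Y734.R

variable {G : Type} [AddCommGroup G] [LinearOrder G] [IsOrderedAddMonoid G]

/-- The similarity with the new root, at height `θ` below the leaf `i0`. -/
def rr {n : ℕ} (P : Fin n → Fin n → G) (i0 : Fin n) (θ : G) (j : Fin n) : G := min (P i0 j) θ

/-- The similarity after the change of the root. -/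
def re {n : ℕ} (P : Fin n → Fin n → G) (i0 : Fin n) (θ : G) (i j : Fin n) : G :=
  P i j + θ - rr P i0 θ i - rr P i0 θ j

section
variable {n : ℕ} {P : Fin n → Fin n → G} (hP : Sim P) (i0 : Fin n) {θ : G} (hθ : 0 ≤ θ)
include hP hθ

theorem rr_nonneg (j : Fin n) : 0 ≤ rr P i0 θ j := le_min (hP.1 _ _) hθ

omit hθ in
theorem rr_le (j : Fin n) : rr P i0 θ j ≤ P j j := by
  have h1 := hP.2.1 i0 j
  have h2 := hP.2.2.2 j i0
  exact (min_le_left _ _).trans (h1.le.trans h2)

omit hP hθ in
theorem rr_le' (j : Fin n) : rr P i0 θ j ≤ θ := min_le_right _ _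

omit hθ in
theorem rr_tri (i j : Fin n) : min (rr P i0 θ i) (rr P i0 θ j) ≤ P i j := by
  have h1 := hP.2.1 i0 i
  have h2 := hP.2.2.1 i i0 j
  unfold rr
  grind

omit hθ in
theorem rr_tri' (i j : Fin n) : min (rr P i0 θ i) (P i j) ≤ rr P i0 θ j := by
  have h2 := hP.2.2.1 i0 i j
  unfold rr
  grind

omit hθ in
theorem re_sim : Sim (re P i0 θ) := by
  have T1 := rr_tri (θ := θ) hP i0
  have T2 := rr_tri' (θ := θ) hP i0
  have T3 := rr_le' (P := P) (θ := θ) i0
  have T4 := rr_le (θ := θ) hP i0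
  obtain ⟨ρ, hρ⟩ : ∃ ρ, ρ = rr P i0 θ := ⟨_, rfl⟩
  have hre : ∀ i j, re P i0 θ i j = P i j + θ - ρ i - ρ j := by
    intro i j; rw [hρ]; rfl
  rw [← hρ] at T1 T2 T3 T4
  refine ⟨?_, ?_, ?_, ?_⟩
  · intro i j
    rw [hre]
    have h1 := T1 i j
    have h2 := T3 i
    have h3 := T3 j
    grind
  · intro i j
    rw [hre, hre, hP.2.1 i j]
    abel
  · intro i j l
    rw [hre, hre, hre]
    have a1 := hP.2.2.1 i j l
    have a2 := hP.2.2.1 j i l
    have a3 := hP.2.2.1 i l j
    have a4 := hP.2.1 i j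
    have a5 := hP.2.1 j l
    have a6 := hP.2.1 i l
    have b1 := T1 i j
    have b2 := T1 j l
    have b3 := T1 i l
    have c1 := T2 i j
    have c2 := T2 j i
    have c3 := T2 i l
    have c4 := T2 l i
    have c5 := T2 j l
    have c6 := T2 l j
    rw [← a4] at *
    grind
  · intro i j
    rw [hre, hre]
    have a4 := hP.2.1 i j
    have c1 := T2 i j
    have c2 := T2 j i
    have b1 := T1 i j
    have d1 := T4 i
    have d2 := hP.2.2.2 i j
    grind

end

/-- The centroid of a tree. -/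
theorem exists_centroid {n : ℕ} (hn : 3 ≤ n) {P : Fin n → Fin n → G} (hP : Sim P) (z : Fin n)
    (hz : ∀ j, P z j = 0) (hz2 : ∃ a b, a ≠ z ∧ b ≠ z ∧ P a b = 0)
    (hp : ∀ i, i ≠ z → ∃ j, j ≠ i ∧ P i i ≤ P i j) :
    ∃ (i0 : Fin n) (θ : G), 0 ≤ θ ∧
      (∀ i, 2 * (univ.filter (fun j => 0 < re P i0 θ i j)).card ≤ n) ∧
      ∀ i, ∃ j, j ≠ i ∧ re P i0 θ i i ≤ re P i0 θ i j := by
  classical
  set T : Finset (Fin n × Fin n) :=
    univ.filter (fun p => n < 2 * (univ.filter (fun l => P p.1 p.2 ≤ P p.1 l)).card) with hT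
  have hTne : T.Nonempty := by
    refine ⟨(z, z), ?_⟩
    simp only [hT, mem_filter, mem_univ, true_and, hz, le_refl, filter_true, card_univ,
      Fintype.card_fin]
    omega
  obtain ⟨⟨i0, j0⟩, hp0, hmax⟩ := Finset.exists_max_image T (fun p => P p.1 p.2) hTne
  simp only [hT, mem_filter, mem_univ, true_and] at hp0 hmax
  obtain ⟨θ, hθ⟩ : ∃ θ, θ = P i0 j0 := ⟨_, rfl⟩
  rw [← hθ] at hp0 hmax
  have hθ0 : 0 ≤ θ := by rw [hθ]; exact hP.1 _ _
  have T1 := rr_tri (θ := θ) hP i0
  have T2 := rr_tri' (θ := θ) hP i0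
  have T3 := rr_le' (P := P) (θ := θ) i0
  have T4 := rr_le (θ := θ) hP i0
  have T5 := rr_nonneg hP i0 hθ0
  obtain ⟨ρ, hρ⟩ : ∃ ρ, ρ = rr P i0 θ := ⟨_, rfl⟩
  have hρ' : ∀ j, ρ j = min (P i0 j) θ := by intro j; rw [hρ]; rfl
  have hre : ∀ i j, re P i0 θ i j = P i j + θ - ρ i - ρ j := by
    intro i j; rw [hρ]; rfl
  rw [← hρ] at T1 T2 T3 T4 T5
  have hρz : ρ z = 0 := by
    rw [hρ', hP.2.1 i0 z, hz, min_eq_left hθ0]
  refine ⟨i0, θ, hθ0, fun i => ?_, fun i => ?_⟩
  · rcases lt_or_ge (ρ i) θ with hi | hi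
    · -- the class is contained in the complement of the big cluster
      have hsub : univ.filter (fun j => 0 < re P i0 θ i j) ⊆
          univ.filter (fun l => ¬ θ ≤ P i0 l) := by
        intro j hj
        simp only [mem_filter, mem_univ, true_and] at hj ⊢
        intro hcon
        rw [hre] at hj
        have e1 : ρ j = θ := by rw [hρ', min_eq_right hcon]
        have e2 := T2 j i
        have e3 := T1 i j
        have e4 := hP.2.1 i j
        have e5 := T2 i j
        grind
      have h1 := Finset.card_le_card hsub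
      have h2 := Finset.card_filter_add_card_filter_not (s := (univ : Finset (Fin n)))
        (fun l => θ ≤ P i0 l)
      rw [card_univ, Fintype.card_fin] at h2
      omega
    · have hi' : ρ i = θ := le_antisymm (T3 i) hi
      by_contra hcon
      rw [not_le] at hcon
      set U := univ.filter (fun j => 0 < re P i0 θ i j) with hU
      have hUne : U.Nonempty := by
        rw [← Finset.card_pos]; omega
      have hU' : ∀ j ∈ U, θ < P i j := by
        intro j hj
        simp only [hU, mem_filter, mem_univ, true_and] at hj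
        rw [hre] at hj
        have e2 := T2 j i
        have e3 := T1 i j
        have e4 := hP.2.1 i j
        have e5 := T2 i j
        have e6 := T3 j
        grind
      obtain ⟨j1, hj1, hj1m⟩ := Finset.exists_min_image U (fun j => P i j) hUne
      have h1 : n < 2 * (univ.filter (fun l => P i j1 ≤ P i l)).card := by
        refine lt_of_lt_of_le hcon (Nat.mul_le_mul_left 2 (Finset.card_le_card ?_))
        intro j hj
        simp only [mem_filter, mem_univ, true_and]
        exact hj1m j hj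
      have h2 := hmax (i, j1) h1
      simp only at h2
      exact absurd (hU' j1 hj1) (not_lt.2 h2)
  · by_cases hiz : i = z
    · subst hiz
      obtain ⟨a, b, ha, hb, hab⟩ := hz2
      have h1 : ρ a = 0 ∨ ρ b = 0 := by
        have h2 := T1 a b
        rw [hab] at h2
        rcases min_le_iff.1 h2 with h3 | h3
        · exact Or.inl (le_antisymm h3 (T5 a))
        · exact Or.inr (le_antisymm h3 (T5 b))
      rcases h1 with h1 | h1
      · refine ⟨a, ha, ?_⟩
        rw [hre, hre, hz, hz, hρz, h1]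
      · refine ⟨b, hb, ?_⟩
        rw [hre, hre, hz, hz, hρz, h1]
    · rcases lt_or_ge (ρ i) (P i i) with hi | hi
      · obtain ⟨j, hj, hij⟩ := hp i hiz
        refine ⟨j, hj, ?_⟩
        rw [hre, hre]
        have e2 := T2 j i
        have e3 := T1 i j
        have e4 := hP.2.1 i j
        have e5 := T2 i j
        have e6 := T3 j
        have e7 := hP.2.2.2 i j
        grind
      · refine ⟨z, Ne.symm hiz, ?_⟩
        rw [hre, hre, hρz, hP.2.1 i z, hz]
        have e1 := T4 i
        have e2 : P i i = ρ i := le_antisymm hi e1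
        rw [e2]
        grind

/-- **A system of ultrametrics with vanishing sum.** -/
theorem comb (q m : ℕ) (d : Fin q → Fin m → Fin m → G) (hq : 2 ≤ q)
    (hm : (q - 1) * (2 * q - 1) ≤ m) (hsym : ∀ s i j, d s i j = d s j i)
    (hult : ∀ s i j l, i ≠ j → j ≠ l → i ≠ l → d s i l ≤ max (d s i j) (d s j l))
    (hsum : ∀ i j, i ≠ j → ∑ s, d s i j = 0) :
    ∀ s i j a b, i ≠ j → a ≠ b → d s i j = d s a b := by
  classical
  have hm2 : 2 ≤ m := by
    have h1 : 1 * 3 ≤ (q - 1) * (2 * q - 1) := Nat.mul_le_mul (by omega) (by omega)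
    omega
  have hex : ∀ i : Fin m, ∃ j, j ≠ i := fun i => by
    haveI : Nontrivial (Fin m) := Fin.nontrivial_iff_two_le.2 hm2
    exact exists_ne i
  -- the diameters
  have hD : ∀ s, ∃ D : G, (∃ a b, a ≠ b ∧ d s a b = D) ∧ ∀ i j, i ≠ j → d s i j ≤ D := by
    intro s
    have hne : (univ : Finset (Fin m)).offDiag.Nonempty := by
      obtain ⟨j, hj⟩ := hex ⟨0, by omega⟩
      exact ⟨(j, ⟨0, by omega⟩), by simp [hj]⟩
    obtain ⟨⟨a, b⟩, hab, hmax⟩ := Finset.exists_max_image _ (fun p => d s p.1 p.2) hne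
    simp only [mem_offDiag, mem_univ, true_and] at hab hmax
    exact ⟨d s a b, ⟨a, b, hab, rfl⟩, fun i j hij => hmax (i, j) hij⟩
  choose D hDex hDmax using hD
  have hμ : ∀ s i, ∃ μ : G, (∃ j, j ≠ i ∧ d s i j = μ) ∧ ∀ j, j ≠ i → μ ≤ d s i j := by
    intro s i
    have hne : ((univ : Finset (Fin m)).filter (fun j => j ≠ i)).Nonempty := by
      obtain ⟨j, hj⟩ := hex i
      exact ⟨j, by simp [hj]⟩
    obtain ⟨j, hj, hmin⟩ := Finset.exists_min_image _ (fun j => d s i j) hne
    simp only [mem_filter, mem_univ, true_and] at hj hmin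
    exact ⟨d s i j, ⟨j, hj, rfl⟩, fun l hl => hmin l hl⟩
  choose μ hμex hμmin using hμ
  let B : Fin q → Fin m → Fin m → G := fun s i j => if i = j then D s - μ s i else D s - d s i j
  let P : Fin q → Fin (m + 1) → Fin (m + 1) → G := fun s =>
    Fin.cases (fun _ => 0) (fun i => Fin.cases 0 (fun j => B s i j))
  have P0 : ∀ s j, P s 0 j = 0 := fun s j => rfl
  have P0' : ∀ s i, P s i 0 = 0 := by
    intro s i
    refine Fin.cases rfl (fun i => rfl) i
  have PS : ∀ s (i j : Fin m), P s i.succ j.succ = B s i j := fun s i j => rfl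
  have Bd : ∀ s i, B s i i = D s - μ s i := fun s i => by simp [B]
  have Bo : ∀ s i j, i ≠ j → B s i j = D s - d s i j := fun s i j h => by simp [B, h]
  have hμD : ∀ s i, μ s i ≤ D s := by
    intro s i
    obtain ⟨j, hj, hj'⟩ := hμex s i
    rw [← hj']
    exact hDmax s i j (Ne.symm hj)
  have hB0 : ∀ s i j, 0 ≤ B s i j := by
    intro s i j
    by_cases hij : i = j
    · subst hij; rw [Bd]; exact sub_nonneg.2 (hμD s i)
    · rw [Bo s i j hij]; exact sub_nonneg.2 (hDmax s i j hij)
  have hBs : ∀ s i j, B s i j = B s j i := by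
    intro s i j
    by_cases hij : i = j
    · subst hij; rfl
    · rw [Bo s i j hij, Bo s j i (Ne.symm hij), hsym s i j]
  have hBd : ∀ s i j, B s i j ≤ B s i i := by
    intro s i j
    by_cases hij : i = j
    · subst hij; exact le_rfl
    · rw [Bo s i j hij, Bd]; exact sub_le_sub_left (hμmin s i j (Ne.symm hij)) _
  have hSim : ∀ s, Sim (P s) := by
    intro s
    refine ⟨?_, ?_, ?_, ?_⟩
    · intro i j
      refine Fin.cases (P0 s j).ge (fun i => ?_) i
      refine Fin.cases (P0' s _).ge (fun j => ?_) j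
      rw [PS]; exact hB0 s i j
    · intro i j
      refine Fin.cases (by rw [P0, P0']) (fun i => ?_) i
      refine Fin.cases (by rw [P0, P0']) (fun j => ?_) j
      rw [PS, PS]; exact hBs s i j
    · have hnn : ∀ i j, 0 ≤ P s i j := by
        intro i j
        refine Fin.cases (P0 s j).ge (fun i => ?_) i
        refine Fin.cases (P0' s _).ge (fun j => ?_) j
        rw [PS]; exact hB0 s i j
      intro i j l
      refine Fin.cases ?_ (fun i => ?_) i
      · rw [P0, P0]; exact min_le_left _ _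
      refine Fin.cases ?_ (fun l => ?_) l
      · rw [P0', P0']; exact min_le_right _ _
      refine Fin.cases ?_ (fun j => ?_) j
      · rw [P0', P0]; exact (min_le_left _ _).trans (hnn _ _)
      rw [PS, PS, PS]
      by_cases h1 : i = j
      · subst h1; exact min_le_right _ _
      by_cases h2 : j = l
      · subst h2; exact min_le_left _ _
      by_cases h3 : i = l
      · subst h3; exact (min_le_left _ _).trans (hBd s i j)
      rw [Bo s i j h1, Bo s j l h2, Bo s i l h3]
      have := hult s i j l h1 h2 h3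
      grind
    · intro i j
      refine Fin.cases ?_ (fun i => ?_) i
      · rw [P0, P0]
      refine Fin.cases ?_ (fun j => ?_) j
      · rw [P0', PS]; exact hB0 s i i
      rw [PS, PS]; exact hBd s i j
  have hcen : ∀ s, ∃ (i0 : Fin (m + 1)) (θ : G), 0 ≤ θ ∧
      (∀ i, 2 * (univ.filter (fun j => 0 < re (P s) i0 θ i j)).card ≤ m + 1) ∧
      ∀ i, ∃ j, j ≠ i ∧ re (P s) i0 θ i i ≤ re (P s) i0 θ i j := by
    intro s
    refine exists_centroid (by omega) (hSim s) 0 (P0 s) ?_ ?_
    · obtain ⟨a, b, hab, hD⟩ := hDex s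
      refine ⟨a.succ, b.succ, Fin.succ_ne_zero _, Fin.succ_ne_zero _, ?_⟩
      rw [PS, Bo s a b hab, hD, sub_self]
    · intro i
      refine Fin.cases (fun h => absurd rfl h) (fun i _ => ?_) i
      obtain ⟨j, hj, hj'⟩ := hμex s i
      refine ⟨j.succ, fun h => hj (Fin.succ_injective _ h), ?_⟩
      rw [PS, PS, Bd, Bo s i j (Ne.symm hj), hj']
  choose i0 θ hθ hcl hpa using hcen
  -- the sums
  obtain ⟨X, hX⟩ : ∃ X, X = ∑ s, D s := ⟨_, rfl⟩
  obtain ⟨R, hR⟩ : ∃ R : Fin (m + 1) → G, R = fun i => ∑ s, rr (P s) (i0 s) (θ s) i := ⟨_, rfl⟩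
  obtain ⟨Θ, hΘ⟩ : ∃ Θ, Θ = ∑ s, θ s := ⟨_, rfl⟩
  let x : Fin (m + 1) → G := Fin.cases X (fun i => - ∑ s, μ s i)
  let y : Fin (m + 1) → G := Fin.cases (Θ - X) (fun i => X + Θ - 2 • R i.succ)
  have hre : ∀ i j, ∑ s, re (P s) (i0 s) (θ s) i j = ∑ s, P s i j + Θ - R i - R j := by
    intro i j
    simp only [re, Finset.sum_sub_distrib, Finset.sum_add_distrib, hR, hΘ]
  have hR0 : R 0 = 0 := by
    rw [hR]
    refine Finset.sum_eq_zero fun s _ => ?_
    show min (P s (i0 s) 0) (θ s) = 0
    rw [P0', min_eq_left (hθ s)]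
  have key := trivial_of_large (q := q) (n := m + 1) (by omega) (by omega) (by omega)
    (fun s => re (P s) (i0 s) (θ s)) (fun s => re_sim (hSim s) (i0 s)) x y ?_ ?_ ?_ hcl hpa
  · -- conclusion
    have hθ' : ∀ s, θ s = 0 := by
      intro s
      have h1 := key s 0 0
      simp only [re, rr] at h1
      rw [P0, P0', min_eq_left (hθ s)] at h1
      simpa using h1
    have hP' : ∀ s i j, P s i j = 0 := by
      intro s i j
      have h1 := key s i j
      simp only [re, rr] at h1
      rw [hθ' s, min_eq_right ((hSim s).1 _ _), min_eq_right ((hSim s).1 _ _)] at h1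
      simpa using h1
    intro s i j a b hij hab
    have h1 := hP' s i.succ j.succ
    have h2 := hP' s a.succ b.succ
    rw [PS, Bo s i j hij, sub_eq_zero] at h1
    rw [PS, Bo s a b hab, sub_eq_zero] at h2
    rw [← h1, ← h2]
  · intro i
    refine Fin.cases ?_ (fun i => ?_) i
    · show 0 ≤ X
      obtain ⟨j, hj⟩ := hex ⟨0, by omega⟩
      rw [hX, ← hsum _ _ hj]
      exact Finset.sum_le_sum fun s _ => hDmax s _ _ hj
    · show 0 ≤ - ∑ s, μ s i
      obtain ⟨j, hj⟩ := hex i
      rw [neg_nonneg, ← hsum _ _ (Ne.symm hj)]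
      exact Finset.sum_le_sum fun s _ => hμmin s i j hj
  · intro i
    rw [hre]
    refine Fin.cases ?_ (fun i => ?_) i
    · show ∑ s, P s 0 0 + Θ - R 0 - R 0 = X + (Θ - X)
      simp only [P0, Finset.sum_const_zero, hR0]
      abel
    · show ∑ s, P s i.succ i.succ + Θ - R i.succ - R i.succ =
        - ∑ s, μ s i + (X + Θ - 2 • R i.succ)
      simp only [PS, Bd, Finset.sum_sub_distrib, ← hX]
      abel
  · intro i j
    rw [hre]
    refine Fin.cases ?_ (fun i => ?_) i
    · refine Fin.cases (fun h => absurd rfl h) (fun j _ => ?_) j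
      show 2 • (∑ s, P s 0 j.succ + Θ - R 0 - R j.succ) =
        (Θ - X) + (X + Θ - 2 • R j.succ)
      simp only [P0, Finset.sum_const_zero, hR0]
      abel
    · refine Fin.cases (fun _ => ?_) (fun j hij => ?_) j
      · show 2 • (∑ s, P s i.succ 0 + Θ - R i.succ - R 0) =
          (X + Θ - 2 • R i.succ) + (Θ - X)
        simp only [P0', Finset.sum_const_zero, hR0]
        abel
      · show 2 • (∑ s, P s i.succ j.succ + Θ - R i.succ - R j.succ) =
          (X + Θ - 2 • R i.succ) + (X + Θ - 2 • R j.succ)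
        have hij' : i ≠ j := fun h => hij (by rw [h])
        have e1 : ∑ s, P s i.succ j.succ = X := by
          simp only [PS, Bo _ i j hij', Finset.sum_sub_distrib, hsum i j hij', sub_zero, hX]
        rw [e1]
        abel

end Pool.Agent.Q13.MB
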