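import Mathlib
import Pool.Agent.Q13.MB.Reroot
import Pool.Agent.Y734.R.Core2
import Pool.Agent.Y734.R.Fin
import Pool.Agent.Y734.R.PR.Main

/-!
# The finiteness theorem with a quadratic bound
-/

set_option autoImplicit false

namespace Pool.Agent.Q13.MB

open NumberField Pool.Agent.Y734.M Pool.Agent.Y734.R

open Classical in
theorem combP (q m : ℕ) (hq : 0 < q) (hm : (q - 1) * (2 * q - 1) ≤ m) : CombP q m := by
  intro Γ _ δ h0 hsym hult hprod s i j a b hij hab
  rcases Nat.lt_or_ge q 2 with hq2 | hq2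
  · have hq1 : q = 1 := by omega
    subst hq1
    have e1 := hprod i j hij
    have e2 := hprod a b hab
    rw [Fin.prod_univ_one] at e1 e2
    have hs : s = 0 := Subsingleton.elim _ _
    rw [hs, e1, e2]
  · have key := comb (G := Additive Γˣ) q m
      (fun s i j => if hij : i ≠ j then Additive.ofMul (Units.mk0 (δ s i j) (h0 s i j hij)) else 0)
      hq2 hm ?_ ?_ ?_ s i j a b hij hab
    · simp only [dif_pos hij, dif_pos hab] at key
      have k2 := Additive.ofMul.injective key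
      have k3 := congrArg (fun u : Γˣ => (u : Γ)) k2
      simpa using k3
    · intro s i j
      by_cases hij : i = j
      · subst hij; rfl
      · have hji : j ≠ i := fun h => hij h.symm
        simp only [dif_pos hij, dif_pos hji, ne_eq]
        congr 1
        exact Units.ext (hsym s i j)
    · intro s i j l hij hjl hil
      simp only [dif_pos hij, dif_pos hjl, dif_pos hil]
      have h1 := hult s i j l
      rcases le_max_iff.mp h1 with h2 | h2
      · exact le_max_of_le_left (Additive.ofMul_le.mpr (Units.val_le_val.mp (by simpa using h2)))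
      · exact le_max_of_le_right (Additive.ofMul_le.mpr (Units.val_le_val.mp (by simpa using h2)))
    · intro i j hij
      simp only [dif_pos hij]
      rw [← ofMul_prod]
      have : (∏ s, Units.mk0 (δ s i j) (h0 s i j hij)) = 1 := by
        apply Units.ext
        rw [Units.coe_prod]
        simpa using hprod i j hij
      rw [this]
      rfl

theorem bound_le {q r : ℕ} (hr : 1 ≤ r) (hq : q ≤ 2 * r) :
    (q - 1) * (2 * q - 1) + 1 ≤ 8 * r ^ 2 - 6 * r + 2 := by
  obtain ⟨t, rfl⟩ : ∃ t, r = t + 1 := ⟨r - 1, by omega⟩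
  have h1 : (q - 1) * (2 * q - 1) ≤ (2 * t + 1) * (4 * t + 3) :=
    Nat.mul_le_mul (by omega) (by omega)
  have h2 : 8 * (t + 1) ^ 2 - 6 * (t + 1) + 2 = (2 * t + 1) * (4 * t + 3) + 1 := by
    have : 8 * (t + 1) ^ 2 = (2 * t + 1) * (4 * t + 3) + 6 * (t + 1) - 1 := by
      have h3 : 8 * (t + 1) ^ 2 + 1 = (2 * t + 1) * (4 * t + 3) + 6 * (t + 1) := by ring
      omega
    have h4 : 1 ≤ (2 * t + 1) * (4 * t + 3) := Nat.mul_pos (by omega) (by omega)
    omega
  omega

/-- The finiteness theorem. -/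
theorem finiteness (r : ℕ) (hr : 1 ≤ r) (k : Type) [Field k] [NumberField k] (S : Finset ℕ)
    (hS : ∀ p ∈ S, p.Prime) (n : ℕ) (h3 : 3 ≤ n) (hn : 8 * r ^ 2 - 6 * r + 2 ≤ n) :
    (Ps k r n S).Finite := by
  obtain ⟨n', rfl⟩ : ∃ n', n = n' + 3 := ⟨n - 3, by omega⟩
  refine PTS.pts k r n' S fun r' h0 hr' => ?_
  have hc : ∀ q, 0 < q → q ≤ 2 * r → CombP q (n' + 2) := by
    intro q hq hqr
    refine combP q (n' + 2) hq ?_
    have := bound_le hr hqr
    omega
  exact core2 h0 (hc r' h0 (by omega)) (hc (r' + r') (by omega) (by omega)) VAL.val PR.prd REL.rel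
    (finn2 INT.intg) (TORI.tori (Pool.Agent.Y734.N.TOR.tor Pool.Agent.Y734.N.SG.sg)) PTS.sur k S hS
    1 0 (by simp)

/-- The theorem. -/
theorem main (hmon : MonStmt) (hlowb : LowbStmt) (r : ℕ) (hr : 2 ≤ r) :
    (∀ (k : Type) [Field k] [NumberField k], ∃ m : ℕ, 2 * r + 3 ≤ m ∧
      m ≤ 8 * r ^ 2 - 6 * r + 2 ∧ ∀ n, 4 ≤ n →
        ((∀ S : Finset ℕ, (∀ p ∈ S, p.Prime) → (Ps k r n S).Finite) ↔ m ≤ n)) ∧
    ∃ (k : Type) (_ : Field k) (_ : NumberField k) (S : Finset ℕ), (∀ p ∈ S, p.Prime) ∧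
      (Ps k r (4 * r - 2) S).Infinite := by
  refine ⟨fun k _ _ => ?_, hlowb r hr⟩
  have h4 : 4 ≤ 8 * r ^ 2 - 6 * r + 2 := by
    have : 2 * r ≤ r ^ 2 := by nlinarith
    omega
  obtain ⟨S, hS, hinf⟩ := LOW.lowc k r hr
  obtain ⟨m, h1, h2, h3⟩ := exists_threshold
    (Q := fun n => ∀ S : Finset ℕ, (∀ p ∈ S, p.Prime) → (Ps k r n S).Finite)
    (a := 2 * r + 2) (b := 8 * r ^ 2 - 6 * r + 2)
    (fun n hn hq S hS => hmon k r n S hn (hq S hS)) (by omega)
    (fun h => hinf (h S hS)) (fun n hn S hS => finiteness r (by omega) k S hS n (by omega) hn)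
  exact ⟨m, by omega, h2, h3⟩

end Pool.Agent.Q13.MB
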